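import Pool.Agent.H474.MS.Stm4

set_option autoImplicit false

/-! # Increments of a Besicovitch almost periodic function -/

open MeasureTheory Filter Topology Set

namespace Pool.Agent.H903.MS.B2

open Pool.Agent.TH223.AP

theorem t_B2 : Pool.Agent.H474.MS.S_B2 := by
  intro f hB hf h c h0
  obtain ⟨E, hE⟩ : ∃ E : ℝ, E = Real.exp (h / 2) := ⟨_, rfl⟩
  rw [← hE]
  have hg : LB (fun v => c * (E * f (v + h) - f v)) :=
    (((Pool.Agent.H313.ZC.LB.shift hf h0).const_mul E).sub hf).const_mul c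
  refine ⟨fun ε hε => ?_, hg⟩
  obtain ⟨D, hD⟩ : ∃ D : ℝ, D = 4 * c ^ 2 * E ^ 2 + 2 * c ^ 2 := ⟨_, rfl⟩
  have hD0 : 0 ≤ D := by rw [hD]; positivity
  obtain ⟨δ, hδ⟩ : ∃ δ : ℝ, δ = ε / (D + 1) := ⟨_, rfl⟩
  have hδ0 : 0 < δ := by rw [hδ]; positivity
  have hDδ : D * δ ≤ ε := by
    rw [hδ, mul_div_assoc', div_le_iff₀ (by positivity)]
    nlinarith
  obtain ⟨K, a, h1⟩ := hB δ hδ0
  refine ⟨K, fun l => (c : ℂ) * a l * ((E : ℂ) * Complex.exp (Complex.I * l * h) - 1), ?_⟩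
  have h1' : ∀ᶠ V : ℝ in atTop, mn (fun v => ‖((f v : ℝ) : ℂ) - trig K a v‖ ^ 2) (V + h) ≤ δ :=
    (tendsto_atTop_add_const_right atTop h tendsto_id).eventually h1
  filter_upwards [h1, h1', eventually_gt_atTop (0 : ℝ), eventually_ge_atTop h] with V g1 g2 hV hVh
  have hd : LB (fun v => ‖((f v : ℝ) : ℂ) - trig K a v‖ ^ 2) := hf.normsq (trig_cont K a)
  have hd' : LB (fun v => ‖((f (v + h) : ℝ) : ℂ) - trig K a (v + h)‖ ^ 2) :=
    Pool.Agent.H313.ZC.LB.shift hd h0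
  have hk1 := (hd'.const_mul (2 * c ^ 2 * E ^ 2)).ii hV.le
  have hk2 := (hd.const_mul (2 * c ^ 2)).ii hV.le
  have g3 : mn (fun v => ‖((c * (E * f (v + h) - f v) : ℝ) : ℂ) -
      trig K (fun l => (c : ℂ) * a l * ((E : ℂ) * Complex.exp (Complex.I * l * h) - 1)) v‖ ^ 2) V ≤
      mn (fun v => 2 * c ^ 2 * E ^ 2 * ‖((f (v + h) : ℝ) : ℂ) - trig K a (v + h)‖ ^ 2 +
        2 * c ^ 2 * ‖((f v : ℝ) : ℂ) - trig K a v‖ ^ 2) V := by
    refine mn_mono hV ((hg.normsq (trig_cont _ _)).ii hV.le) (hk1.add hk2) fun v _ => ?_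
    have e1 : trig K (fun l => (c : ℂ) * a l * ((E : ℂ) * Complex.exp (Complex.I * l * h) - 1)) v =
        c * (E * trig K a (v + h) - trig K a v) := by
      unfold trig
      rw [Finset.mul_sum, ← Finset.sum_sub_distrib, Finset.mul_sum]
      refine Finset.sum_congr rfl fun l _ => ?_
      have e2 : Complex.exp (Complex.I * l * ((v + h : ℝ) : ℂ)) =
          Complex.exp (Complex.I * l * v) * Complex.exp (Complex.I * l * h) := by
        rw [← Complex.exp_add]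
        congr 1
        push_cast
        ring
      rw [e2]
      ring
    have e3 : ((c * (E * f (v + h) - f v) : ℝ) : ℂ) - c * (E * trig K a (v + h) - trig K a v) =
        c * (E * (((f (v + h) : ℝ) : ℂ) - trig K a (v + h)) - (((f v : ℝ) : ℂ) - trig K a v)) := by
      push_cast
      ring
    rw [e1, e3, norm_mul, mul_pow, Complex.norm_real, Real.norm_eq_abs, sq_abs]
    obtain ⟨x, hx⟩ : ∃ x : ℂ, x = ((f (v + h) : ℝ) : ℂ) - trig K a (v + h) := ⟨_, rfl⟩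
    obtain ⟨y, hy⟩ : ∃ y : ℂ, y = ((f v : ℝ) : ℂ) - trig K a v := ⟨_, rfl⟩
    rw [← hx, ← hy]
    have e4 : ‖(E : ℂ) * x - y‖ ^ 2 ≤ 2 * E ^ 2 * ‖x‖ ^ 2 + 2 * ‖y‖ ^ 2 := by
      have e5 : ‖(E : ℂ) * x - y‖ ≤ |E| * ‖x‖ + ‖y‖ := by
        refine (norm_sub_le _ _).trans ?_
        rw [norm_mul, Complex.norm_real, Real.norm_eq_abs]
      have e6 : ‖(E : ℂ) * x - y‖ ^ 2 ≤ (|E| * ‖x‖ + ‖y‖) ^ 2 :=
        pow_le_pow_left₀ (norm_nonneg _) e5 2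
      have e7 : |E| ^ 2 = E ^ 2 := sq_abs E
      nlinarith [sq_nonneg (|E| * ‖x‖ - ‖y‖)]
    have e8 := mul_le_mul_of_nonneg_left e4 (sq_nonneg c)
    linarith
  rw [mn_add hk1 hk2, mn_const_mul, mn_const_mul] at g3
  have g4 := Pool.Agent.H313.ZC.mn_shift hd (fun v => by positivity) h0 hV hVh
  refine g3.trans ?_
  have g5 : mn (fun v => ‖((f (v + h) : ℝ) : ℂ) - trig K a (v + h)‖ ^ 2) V ≤ 2 * δ := by
    linarith
  have g6 : 2 * c ^ 2 * E ^ 2 * mn (fun v => ‖((f (v + h) : ℝ) : ℂ) - trig K a (v + h)‖ ^ 2) V ≤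
      2 * c ^ 2 * E ^ 2 * (2 * δ) := by
    gcongr
  have g7 : 2 * c ^ 2 * mn (fun v => ‖((f v : ℝ) : ℂ) - trig K a v‖ ^ 2) V ≤ 2 * c ^ 2 * δ := by
    gcongr
  have g8 : 2 * c ^ 2 * E ^ 2 * (2 * δ) + 2 * c ^ 2 * δ = D * δ := by
    rw [hD]
    ring
  linarith

end Pool.Agent.H903.MS.B2
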